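import Pool.Agent.Run7.h384.LOC.Poly
import Pool.Agent.Run7.h384.PAT.Main

/-!
# Colourings of triples and numbers of edges of 4-sets
-/

set_option autoImplicit false

namespace Pool.Agent.Run7.h384.LOC

open Finset Pool.Agent.TH138.NF Pool.Agent.Y424.LK Pool.Agent.Run7.h384.UNI
open Pool.Agent.Run7.h384.PAT

theorem edges_sum (r : ℕ) (c : Finset ℕ → Bool) (B : Finset ℕ) (hB : B.card = r + 1) :
    edges r c B = ∑ b ∈ B, (c (B.erase b)).toNat := by
  classical
  have h1 : powersetCard r B = B.image (fun b => B.erase b) := by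
    ext A
    rw [mem_powersetCard, mem_image]
    constructor
    · rintro ⟨hA, hAc⟩
      have hd : (B \ A).card = 1 := by
        rw [card_sdiff_of_subset hA]
        omega
      obtain ⟨b, hb⟩ := card_eq_one.1 hd
      have hbB : b ∈ B := by
        have : b ∈ B \ A := by rw [hb]; exact mem_singleton_self _
        exact (mem_sdiff.1 this).1
      refine ⟨b, hbB, ?_⟩
      rw [← sdiff_singleton_eq_erase, ← hb]
      exact Finset.sdiff_sdiff_eq_self hA
    · rintro ⟨b, hb, rfl⟩
      exact ⟨erase_subset _ _, by rw [card_erase_of_mem hb, hB]; rfl⟩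
  have hinj : Set.InjOn (fun b => B.erase b) (B : Set ℕ) := by
    intro b hb b' hb' h
    by_contra hne
    have h2 : b' ∈ B.erase b := mem_erase.2 ⟨fun h => hne h.symm, hb'⟩
    have h3 : B.erase b = B.erase b' := h
    rw [h3] at h2
    exact (mem_erase.1 h2).1 rfl
  unfold edges
  rw [card_filter, h1, sum_image hinj]
  apply sum_congr rfl
  intro b _
  cases c (B.erase b) <;> simp

theorem edges_four (c : Finset ℕ → Bool) {x y z w : ℕ} (xy : x ≠ y) (xz : x ≠ z) (xw : x ≠ w)
    (yz : y ≠ z) (yw : y ≠ w) (zw : z ≠ w) :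
    edges 3 c {x, y, z, w} = (c {x, y, z}).toNat + (c {x, y, w}).toNat + (c {x, z, w}).toNat +
      (c {y, z, w}).toNat := by
  classical
  have hcard : ({x, y, z, w} : Finset ℕ).card = 3 + 1 := by
    rw [card_insert_of_notMem, card_insert_of_notMem, card_insert_of_notMem, card_singleton]
    all_goals simp [xy, xz, xw, yz, yw, zw]
  rw [edges_sum 3 c _ hcard]
  rw [sum_insert (by simp [xy, xz, xw]), sum_insert (by simp [yz, yw]), sum_insert (by simp [zw]),
    sum_singleton]
  have e1 : ({x, y, z, w} : Finset ℕ).erase x = {y, z, w} := by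
    ext t; simp only [mem_erase, mem_insert, mem_singleton]; omega
  have e2 : ({x, y, z, w} : Finset ℕ).erase y = {x, z, w} := by
    ext t; simp only [mem_erase, mem_insert, mem_singleton]; omega
  have e3 : ({x, y, z, w} : Finset ℕ).erase z = {x, y, w} := by
    ext t; simp only [mem_erase, mem_insert, mem_singleton]; omega
  have e4 : ({x, y, z, w} : Finset ℕ).erase w = {x, y, z} := by
    ext t; simp only [mem_erase, mem_insert, mem_singleton]; omega
  rw [e1, e2, e3, e4]
  omega

theorem card_four {x y z w : ℕ} (xy : x ≠ y) (xz : x ≠ z) (xw : x ≠ w)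
    (yz : y ≠ z) (yw : y ≠ w) (zw : z ≠ w) : ({x, y, z, w} : Finset ℕ).card = 4 := by
  rw [card_insert_of_notMem, card_insert_of_notMem, card_insert_of_notMem, card_singleton]
  all_goals simp [xy, xz, xw, yz, yw, zw]

theorem four_sorted {B : Finset ℕ} (hB : B.card = 4) :
    ∃ x y z w, x < y ∧ y < z ∧ z < w ∧ B = {x, y, z, w} := by
  classical
  set e := B.orderEmbOfFin hB with he
  have hm : StrictMono (e : Fin 4 → ℕ) := e.strictMono
  refine ⟨e 0, e 1, e 2, e 3, hm (by decide), hm (by decide), hm (by decide), ?_⟩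
  have h1 : univ.image (e : Fin 4 → ℕ) = B := by
    apply eq_of_subset_of_card_le
    · intro x hx
      obtain ⟨i, -, rfl⟩ := mem_image.1 hx
      exact orderEmbOfFin_mem _ _ _
    · rw [card_image_of_injective _ hm.injective, card_univ, Fintype.card_fin, hB]
  rw [← h1]
  ext t
  simp only [mem_image, mem_univ, true_and, mem_insert, mem_singleton]
  constructor
  · rintro ⟨i, rfl⟩
    fin_cases i <;> simp
  · rintro (rfl | rfl | rfl | rfl)
    exacts [⟨0, rfl⟩, ⟨1, rfl⟩, ⟨2, rfl⟩, ⟨3, rfl⟩]

theorem three_sorted {B : Finset ℕ} (hB : B.card = 3) :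
    ∃ x y z, x < y ∧ y < z ∧ B = {x, y, z} := by
  classical
  set e := B.orderEmbOfFin hB with he
  have hm : StrictMono (e : Fin 3 → ℕ) := e.strictMono
  refine ⟨e 0, e 1, e 2, hm (by decide), hm (by decide), ?_⟩
  have h1 : univ.image (e : Fin 3 → ℕ) = B := by
    apply eq_of_subset_of_card_le
    · intro x hx
      obtain ⟨i, -, rfl⟩ := mem_image.1 hx
      exact orderEmbOfFin_mem _ _ _
    · rw [card_image_of_injective _ hm.injective, card_univ, Fintype.card_fin, hB]
  rw [← h1]
  ext t
  simp only [mem_image, mem_univ, true_and, mem_insert, mem_singleton]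
  constructor
  · rintro ⟨i, rfl⟩
    fin_cases i <;> simp
  · rintro (rfl | rfl | rfl)
    exacts [⟨0, rfl⟩, ⟨1, rfl⟩, ⟨2, rfl⟩]

/-- Every 4-subset of `{0, …, N - 1}` spans a number of edges (triples of the colour `true`) in
`P`. -/
def Local (P : Finset ℕ) (N : ℕ) (c : Finset ℕ → Bool) : Prop :=
  ∀ B ⊆ range N, B.card = 4 → edges 3 c B ∈ P

theorem sym3_c (c : Finset ℕ → Bool) : Sym3 (fun x y z => c {x, y, z}) where
  s12 x y z := by
    show c _ = c _
    rw [insert_comm]
  s23 x y z := by
    show c _ = c _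
    rw [pair_comm]

theorem homogeneous_of {c : Finset ℕ → Bool} {H : Finset ℕ} {t : Bool}
    (h : ∀ x ∈ H, ∀ y ∈ H, ∀ z ∈ H, x < y → y < z → c {x, y, z} = t) : Homogeneous 3 c H := by
  have h1 : ∀ A ⊆ H, A.card = 3 → c A = t := by
    intro A hA hAc
    obtain ⟨x, y, z, hxy, hyz, rfl⟩ := three_sorted hAc
    exact h x (hA (by simp)) y (hA (by simp)) z (hA (by simp)) hxy hyz
  intro A hA B hB hAc hBc
  rw [h1 A hA hAc, h1 B hB hBc]

/-- the complementary colouring -/
theorem edges_not (c : Finset ℕ → Bool) {B : Finset ℕ} (hB : B.card = 4) :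
    edges 3 (fun A => !c A) B + edges 3 c B = 4 := by
  classical
  unfold edges
  have h1 : (powersetCard 3 B).filter (fun A => (!c A) = true) =
      (powersetCard 3 B).filter (fun A => ¬ c A = true) := by
    apply filter_congr
    intro A _
    simp
  rw [h1, add_comm, card_filter_add_card_filter_not, card_powersetCard, hB]
  rfl

theorem homogeneous_not {c : Finset ℕ → Bool} {H : Finset ℕ} {r : ℕ}
    (h : Homogeneous r (fun A => !c A) H) : Homogeneous r c H := by
  intro A hA B hB hAc hBc
  have := h A hA B hB hAc hBc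
  simpa using this

/-! ### polynomial growth -/

theorem poly_noTwo {P : Finset ℕ} (hP : 2 ∉ P) {N n : ℕ} (hn : 1 ≤ n) (hN : 1024 * n ^ 20 ≤ N)
    (c : Finset ℕ → Bool) (hc : Local P N c) : ∃ H ⊆ range N, H.card = n ∧ Homogeneous 3 c H := by
  classical
  by_contra hno
  push Not at hno
  have hs := sym3_c c
  have hn2 : NoTwo (fun x y z => c {x, y, z}) (range N) := by
    intro x hx y hy z hz w hw xy xz xw yz yw zw h2
    apply hP
    rw [← h2, ← edges_four c xy xz xw yz yw zw]
    apply hc _ ?_ (card_four xy xz xw yz yw zw)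
    intro t ht
    simp only [mem_insert, mem_singleton] at ht
    rcases ht with rfl | rfl | rfl | rfl <;> assumption
  have h1 := noTwo_poly hs N (range N) (card_range N).le hn2
  rw [card_range] at h1
  have h2 : ∀ t, hm3 (fun x y z => c {x, y, z}) t (range N) < n := by
    intro t
    by_contra hcon
    push Not at hcon
    obtain ⟨H, hH, hHm, hHc⟩ := exists_hm3 (fun x y z => c {x, y, z}) t (range N)
    obtain ⟨H', hH', hc'⟩ := exists_subset_card_eq (hHc ▸ hcon)
    apply hno H' (hH'.trans hH) hc'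
    apply homogeneous_of (t := t)
    intro x hx y hy z hz hxy hyz
    exact hHm x (hH' hx) y (hH' hy) z (hH' hz) hxy.ne (hxy.trans hyz).ne hyz.ne
  have h3 : F3 (fun x y z => c {x, y, z}) (range N) ≤ (n - 1) * n := by
    unfold F3
    have e1 := h2 true
    have e2 := h2 false
    exact Nat.mul_le_mul (by omega) (by omega)
  have h4 : N < 1024 * n ^ 20 := by
    have h5 : (n - 1) * n < n * n := Nat.mul_lt_mul_of_pos_right (by omega) (by omega)
    calc N ≤ (2 * F3 (fun x y z => c {x, y, z}) (range N)) ^ 10 := h1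
      _ ≤ (2 * ((n - 1) * n)) ^ 10 := Nat.pow_le_pow_left (Nat.mul_le_mul_left _ h3) 10
      _ < (2 * (n * n)) ^ 10 := Nat.pow_lt_pow_left (by omega) (by norm_num)
      _ = _ := by ring
  omega

/-- the ordered pattern of two disjoint edges -/
def G22 : ℕ → ℕ → Bool := subst (subst (fun _ _ => false) (fun _ _ => true) 0 2) (fun _ _ => true) 2 2

theorem eh_G22 : EH 4 G22 20 := by
  have h1 : EH (2 + 2 - 1) (subst (fun _ _ => false) (fun _ _ => true) 0 2) (2 + 2 * 2) :=
    eh_subst (eh_small (by norm_num) _) (eh_small (by norm_num) _) (by norm_num) (by norm_num)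
  exact eh_subst h1 (eh_small (k := 2) (by norm_num) _) (by norm_num) (by norm_num)

theorem poly_023 {P : Finset ℕ} (hP : P ⊆ {0, 2, 3}) {N n : ℕ} (hn : 1 ≤ n)
    (hN : 1024 * n ^ 20 ≤ N) (c : Finset ℕ → Bool) (hc : Local P N c) :
    ∃ H ⊆ range N, H.card = n ∧ Homogeneous 3 c H := by
  classical
  have hn20 : 1 ≤ n ^ 20 := Nat.one_le_pow _ _ hn
  have h0N : 0 ∈ range N := by rw [mem_range]; omega
  set S := (range N).erase 0 with hS
  have hSc : S.card = N - 1 := by rw [hS, card_erase_of_mem h0N, card_range]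
  have hSN : S ⊆ range N := erase_subset _ _
  -- the four points `0, x, y, z`
  have key : ∀ x ∈ S, ∀ y ∈ S, ∀ z ∈ S, x < y → y < z →
      (c {0, x, y}).toNat + (c {0, x, z}).toNat + (c {0, y, z}).toNat + (c {x, y, z}).toNat ∈
        ({0, 2, 3} : Finset ℕ) := by
    intro x hx y hy z hz hxy hyz
    rw [hS, mem_erase] at hx hy hz
    rw [← edges_four c hx.1.symm hy.1.symm hz.1.symm hxy.ne (hxy.trans hyz).ne hyz.ne]
    apply hP
    apply hc _ ?_ (card_four hx.1.symm hy.1.symm hz.1.symm hxy.ne (hxy.trans hyz).ne hyz.ne)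
    intro t ht
    simp only [mem_insert, mem_singleton] at ht
    rcases ht with rfl | rfl | rfl | rfl
    exacts [h0N, hx.2, hy.2, hz.2]
  obtain ⟨b, H, hH, hHm, hHc⟩ := eh_G22 (fun x y => c {0, x, y}) S n hn (by omega) (by
    rintro ⟨φ, h1, h2⟩
    have a01 := h2 1 (by norm_num) 0 (by norm_num)
    have a02 := h2 2 (by norm_num) 0 (by norm_num)
    have a03 := h2 3 (by norm_num) 0 (by norm_num)
    have a12 := h2 2 (by norm_num) 1 (by norm_num)
    have a13 := h2 3 (by norm_num) 1 (by norm_num)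
    have a23 := h2 3 (by norm_num) 2 (by norm_num)
    have g01 : G22 0 1 = true := by decide
    have g02 : G22 0 2 = false := by decide
    have g03 : G22 0 3 = false := by decide
    have g12 : G22 1 2 = false := by decide
    have g13 : G22 1 3 = false := by decide
    have g23 : G22 2 3 = true := by decide
    rw [g01] at a01
    rw [g02] at a02
    rw [g03] at a03
    rw [g12] at a12
    rw [g13] at a13
    rw [g23] at a23
    beta_reduce at a01 a02 a03 a12 a13 a23
    have s0 := h1 0 (by norm_num)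
    have s1 := h1 1 (by norm_num)
    have s2 := h1 2 (by norm_num)
    have s3 := h1 3 (by norm_num)
    have k1 := key _ s0 _ s1 _ s2 a01.1 a12.1
    have k2 := key _ s0 _ s1 _ s3 a01.1 a13.1
    have k3 := key _ s0 _ s2 _ s3 a02.1 a23.1
    have k4 := key _ s1 _ s2 _ s3 a12.1 a23.1
    have e1 : c {φ 0, φ 1, φ 2} = true := by
      rw [a01.2, a02.2, a12.2] at k1
      cases hh : c {φ 0, φ 1, φ 2} <;> simp_all
    have e2 : c {φ 0, φ 1, φ 3} = true := by
      rw [a01.2, a03.2, a13.2] at k2
      cases hh : c {φ 0, φ 1, φ 3} <;> simp_all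
    have e3 : c {φ 0, φ 2, φ 3} = true := by
      rw [a02.2, a03.2, a23.2] at k3
      cases hh : c {φ 0, φ 2, φ 3} <;> simp_all
    have e4 : c {φ 1, φ 2, φ 3} = true := by
      rw [a12.2, a13.2, a23.2] at k4
      cases hh : c {φ 1, φ 2, φ 3} <;> simp_all
    have h3 := edges_four c a01.1.ne a02.1.ne a03.1.ne a12.1.ne a13.1.ne a23.1.ne
    rw [e1, e2, e3, e4] at h3
    have h4 := hP (hc {φ 0, φ 1, φ 2, φ 3} (by
      intro t ht
      simp only [mem_insert, mem_singleton] at ht
      rcases ht with rfl | rfl | rfl | rfl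
      exacts [hSN s0, hSN s1, hSN s2, hSN s3]) (card_four a01.1.ne a02.1.ne a03.1.ne a12.1.ne
        a13.1.ne a23.1.ne))
    rw [h3] at h4
    simp at h4)
  obtain ⟨H', hH', hc'⟩ := exists_subset_card_eq hHc
  refine ⟨H', hH'.trans (hH.trans hSN), hc', ?_⟩
  apply homogeneous_of (t := false)
  intro x hx y hy z hz hxy hyz
  have k := key x (hH (hH' hx)) y (hH (hH' hy)) z (hH (hH' hz)) hxy hyz
  have e1 := hHm x (hH' hx) y (hH' hy) hxy
  have e2 := hHm x (hH' hx) z (hH' hz) (hxy.trans hyz)
  have e3 := hHm y (hH' hy) z (hH' hz) hyz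
  simp only at e1 e2 e3
  rw [e1, e2, e3] at k
  cases b <;> cases hh : c {x, y, z} <;> simp_all

theorem poly_124 {P : Finset ℕ} (hP : P ⊆ {1, 2, 4}) {N n : ℕ} (hn : 1 ≤ n)
    (hN : 1024 * n ^ 20 ≤ N) (c : Finset ℕ → Bool) (hc : Local P N c) :
    ∃ H ⊆ range N, H.card = n ∧ Homogeneous 3 c H := by
  obtain ⟨H, h1, h2, h3⟩ := poly_023 (P := {0, 2, 3}) (Subset.refl _) hn hN (fun A => !c A) (by
    intro B hB hBc
    have h1 := edges_not c hBc
    have h2 := hP (hc B hB hBc)
    simp only [mem_insert, mem_singleton] at h2 ⊢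
    omega)
  exact ⟨H, h1, h2, homogeneous_not h3⟩

end Pool.Agent.Run7.h384.LOC
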