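import Pool.Agent.Run7.h384.LOC.Four
import Pool.Agent.H818R2.Ram.Erdos

/-!
# Colourings of triples with few numbers of edges of 4-sets, lower bounds
-/

set_option autoImplicit false

namespace Pool.Agent.Run7.h384.LOC

open Finset Pool.Agent.TH138.NF Pool.Agent.Run7.h384.UNI Pool.Agent.Run7.h384.PAT
open Pool.Agent.H818R2.Ram

open Classical in
/-- the colouring of triples defined by a function of the sorted triple -/
noncomputable def tri (f : ℕ → ℕ → ℕ → Bool) (A : Finset ℕ) : Bool :=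
  decide (∃ x ∈ A, ∃ y ∈ A, ∃ z ∈ A, x < y ∧ y < z ∧ f x y z = true)

theorem tri_eq (f : ℕ → ℕ → ℕ → Bool) {x y z : ℕ} (hxy : x < y) (hyz : y < z) :
    tri f {x, y, z} = f x y z := by
  unfold tri
  rcases hf : f x y z with _ | _
  · rw [decide_eq_false_iff_not]
    rintro ⟨a, ha, b, hb, c, hc, hab, hbc, h⟩
    simp only [mem_insert, mem_singleton] at ha hb hc
    have ha' : a = x := by omega
    have hb' : b = y := by omega
    have hc' : c = z := by omega
    rw [ha', hb', hc', hf] at h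
    exact Bool.noConfusion h
  · rw [decide_eq_true_eq]
    exact ⟨x, by simp, y, by simp, z, by simp, hxy, hyz, hf⟩

/-- `x → y → z` but not `x → z` -/
def f1 (d : ℕ → ℕ → Bool) (x y z : ℕ) : Bool := d x y && d y z && !d x z

/-- odd number of edges -/
def f2 (d : ℕ → ℕ → Bool) (x y z : ℕ) : Bool := xor (xor (d x y) (d x z)) (d y z)

theorem local_f1 (d : ℕ → ℕ → Bool) (N : ℕ) : Local {0, 1, 2} N (tri (f1 d)) := by
  intro B hB hBc
  obtain ⟨x, y, z, w, hxy, hyz, hzw, rfl⟩ := four_sorted hBc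
  rw [edges_four _ hxy.ne (hxy.trans hyz).ne (hxy.trans (hyz.trans hzw)).ne hyz.ne
    (hyz.trans hzw).ne hzw.ne, tri_eq _ hxy hyz, tri_eq _ hxy (hyz.trans hzw),
    tri_eq _ (hxy.trans hyz) hzw, tri_eq _ hyz hzw]
  unfold f1
  cases d x y <;> cases d x z <;> cases d x w <;> cases d y z <;> cases d y w <;> cases d z w <;>
    decide

theorem local_f2 (d : ℕ → ℕ → Bool) (N : ℕ) : Local {0, 2, 4} N (tri (f2 d)) := by
  intro B hB hBc
  obtain ⟨x, y, z, w, hxy, hyz, hzw, rfl⟩ := four_sorted hBc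
  rw [edges_four _ hxy.ne (hxy.trans hyz).ne (hxy.trans (hyz.trans hzw)).ne hyz.ne
    (hyz.trans hzw).ne hzw.ne, tri_eq _ hxy hyz, tri_eq _ hxy (hyz.trans hzw),
    tri_eq _ (hxy.trans hyz) hzw, tri_eq _ hyz hzw]
  unfold f2
  cases d x y <;> cases d x z <;> cases d x w <;> cases d y z <;> cases d y w <;> cases d z w <;>
    decide

theorem card_three {x y z : ℕ} (xy : x ≠ y) (xz : x ≠ z) (yz : y ≠ z) :
    ({x, y, z} : Finset ℕ).card = 3 := by
  rw [card_insert_of_notMem, card_insert_of_notMem, card_singleton]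
  all_goals simp [xy, xz, yz]

theorem hom_f1 {d : ℕ → ℕ → Bool} {H : Finset ℕ} {m : ℕ} (h4 : 4 ≤ H.card) (hm1 : 1 ≤ m)
    (hm : m * m ≤ H.card) (hH : Homogeneous 3 (tri (f1 d)) H) :
    ∃ b, ∃ K ⊆ H, Mono d b K ∧ m ≤ K.card := by
  classical
  obtain ⟨B, hB, hBc⟩ := exists_subset_card_eq h4
  obtain ⟨x, y, z, w, hxy, hyz, hzw, rfl⟩ := four_sorted hBc
  have hx : x ∈ H := hB (by simp)
  have hy : y ∈ H := hB (by simp)
  have hz : z ∈ H := hB (by simp)
  have hw : w ∈ H := hB (by simp)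
  have key : ∀ a ∈ H, ∀ b ∈ H, ∀ c ∈ H, a < b → b < c → f1 d a b c = f1 d x y z := by
    intro a ha b hb c hc hab hbc
    rw [← tri_eq (f1 d) hab hbc, ← tri_eq (f1 d) hxy hyz]
    apply hH
    · intro t ht
      simp only [mem_insert, mem_singleton] at ht
      rcases ht with rfl | rfl | rfl <;> assumption
    · intro t ht
      simp only [mem_insert, mem_singleton] at ht
      rcases ht with rfl | rfl | rfl <;> assumption
    · exact card_three hab.ne (hab.trans hbc).ne hbc.ne
    · exact card_three hxy.ne (hxy.trans hyz).ne hyz.ne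
  have hfalse : f1 d x y z = false := by
    have h2 := key x hx z hz w hw (hxy.trans hyz) hzw
    cases h3 : f1 d x y z
    · rfl
    · exfalso
      rw [h3] at h2
      unfold f1 at h2 h3
      cases e1 : d x z <;> simp_all
  apply trans_col (a := true) ?_ hm hm1
  intro a ha b hb c hc hab hbc h1 h2
  have h3 := key a ha b hb c hc hab hbc
  rw [hfalse] at h3
  unfold f1 at h3
  rw [h1, h2] at h3
  simpa using h3

theorem hom_f2 {d : ℕ → ℕ → Bool} {H : Finset ℕ} {m : ℕ} (h4 : 3 ≤ H.card)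
    (hm : 2 * m + 1 ≤ H.card) (hH : Homogeneous 3 (tri (f2 d)) H) :
    ∃ b, ∃ K ⊆ H, Mono d b K ∧ m ≤ K.card := by
  classical
  obtain ⟨B, hB, hBc⟩ := exists_subset_card_eq h4
  obtain ⟨x, y, z, hxy, hyz, rfl⟩ := three_sorted hBc
  have hx : x ∈ H := hB (by simp)
  have hy : y ∈ H := hB (by simp)
  have hz : z ∈ H := hB (by simp)
  have key : ∀ a ∈ H, ∀ b ∈ H, ∀ c ∈ H, a < b → b < c → f2 d a b c = f2 d x y z := by
    intro a ha b hb c hc hab hbc
    rw [← tri_eq (f2 d) hab hbc, ← tri_eq (f2 d) hxy hyz]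
    apply hH
    · intro t ht
      simp only [mem_insert, mem_singleton] at ht
      rcases ht with rfl | rfl | rfl <;> assumption
    · intro t ht
      simp only [mem_insert, mem_singleton] at ht
      rcases ht with rfl | rfl | rfl <;> assumption
    · exact card_three hab.ne (hab.trans hbc).ne hbc.ne
    · exact card_three hxy.ne (hxy.trans hyz).ne hyz.ne
  have hne : H.Nonempty := ⟨x, hx⟩
  set u := H.min' hne with hu
  have huH : u ∈ H := min'_mem _ _
  have hmin : ∀ t ∈ H.erase u, u < t := by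
    intro t ht
    rw [mem_erase] at ht
    exact lt_of_le_of_ne (min'_le _ _ ht.2) ht.1.symm
  have hc := card_erase_add_one huH
  have hsplit := card_filter_add_card_filter_not (s := H.erase u) (fun t => d u t = true)
  have main : ∀ s : Bool, Mono d (f2 d x y z) ((H.erase u).filter (fun t => d u t = s)) := by
    intro s a ha b hb hab
    rw [mem_filter] at ha hb
    have h1 := key u huH a (mem_erase.1 ha.1).2 b (mem_erase.1 hb.1).2 (hmin a ha.1) hab
    rw [← h1]
    unfold f2
    rw [ha.2, hb.2]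
    cases s <;> simp
  rcases Nat.lt_or_ge ((H.erase u).filter (fun t => d u t = true)).card m with h1 | h1
  · refine ⟨_, (H.erase u).filter (fun t => d u t = false), (filter_subset _ _).trans
      (erase_subset _ _), main false, ?_⟩
    have h2 : (H.erase u).filter (fun t => ¬ d u t = true) =
        (H.erase u).filter (fun t => d u t = false) := by
      apply filter_congr
      intro t _
      simp
    rw [h2] at hsplit
    omega
  · exact ⟨_, _, (filter_subset _ _).trans (erase_subset _ _), main true, h1⟩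

open Classical in
/-- Erdős's lower bound for graphs -/
theorem erdos {m : ℕ} (hm : 3 ≤ m) : ∃ d : ℕ → ℕ → Bool,
    ∀ b, ∀ K ⊆ range (2 ^ (m / 2)), Mono d b K → K.card < m := by
  have h1 := erdos_lower hm
  have h2 : 2 ^ (m / 2) < R m m := by
    by_contra hcon
    push Not at hcon
    have h3 : (R m m) ^ 2 ≤ (2 ^ (m / 2)) ^ 2 := Nat.pow_le_pow_left hcon 2
    have h4 : (2 ^ (m / 2)) ^ 2 ≤ 2 ^ m := by
      rw [← pow_mul]
      exact Nat.pow_le_pow_right (by norm_num) (by omega)
    omega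
  obtain ⟨N, hN⟩ : ∃ N, N = 2 ^ (m / 2) := ⟨_, rfl⟩
  rw [← hN] at h2 ⊢
  obtain ⟨G, hG1, hG2⟩ := exists_coloring h2
  refine ⟨fun x y => if h : x < N ∧ y < N then decide (G.Adj ⟨x, h.1⟩ ⟨y, h.2⟩) else false, ?_⟩
  intro b K hK hKm
  by_contra hcon
  push Not at hcon
  set K' : Finset (Fin N) := univ.filter (fun x => (x : ℕ) ∈ K) with hK'
  have hK'c : K'.card = K.card := by
    apply card_bij (fun (x : Fin N) _ => (x : ℕ))
    · intro x hx
      exact (mem_filter.1 hx).2
    · intro x _ y _ h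
      exact Fin.ext h
    · intro x hx
      exact ⟨⟨x, mem_range.1 (hK hx)⟩, mem_filter.2 ⟨mem_univ _, hx⟩, rfl⟩
  have hcol : ∀ x ∈ K', ∀ y ∈ K', x < y → decide (G.Adj x y) = b := by
    intro x hx y hy hxy
    have := hKm x (mem_filter.1 hx).2 y (mem_filter.1 hy).2 hxy
    simpa [x.2, y.2] using this
  cases b
  · apply hG2
    refine HasBlue.le ⟨K', subset_univ _, ?_, rfl⟩ (hK'c ▸ hcon)
    intro x hx y hy hxy
    rw [SimpleGraph.compl_adj]
    refine ⟨hxy, fun hadj => ?_⟩
    rcases lt_or_gt_of_ne hxy with h | h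
    · have := hcol x hx y hy h
      simp [hadj] at this
    · have := hcol y hy x hx h
      simp [hadj.symm] at this
  · apply hG1
    refine HasRed.le ⟨K', subset_univ _, ?_, rfl⟩ (hK'c ▸ hcon)
    intro x hx y hy hxy
    rcases lt_or_gt_of_ne hxy with h | h
    · have := hcol x hx y hy h
      simpa using this
    · have := hcol y hy x hx h
      exact (by simpa using this : G.Adj y x).symm

theorem Local.mono {P Q : Finset ℕ} (h : P ⊆ Q) {N : ℕ} {c : Finset ℕ → Bool} (hc : Local P N c) :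
    Local Q N c := fun B hB hBc => h (hc B hB hBc)

theorem homogeneous_not' {c : Finset ℕ → Bool} {H : Finset ℕ} {r : ℕ}
    (h : Homogeneous r (fun A => !c A) H) : Homogeneous r c H := homogeneous_not h

/-- lower bound -/
theorem lower {P : Finset ℕ} (h04 : 0 ∈ P ∨ 4 ∈ P) (h2 : 2 ∈ P) (h023 : ¬ P ⊆ {0, 2, 3})
    (h124 : ¬ P ⊆ {1, 2, 4}) (hP : P ⊆ range 5) {n : ℕ} (hn : 9 ≤ n) :
    ∃ c : Finset ℕ → Bool, Local P (2 ^ (Nat.sqrt n / 2)) c ∧
      ∀ H ⊆ range (2 ^ (Nat.sqrt n / 2)), H.card = n → ¬ Homogeneous 3 c H := by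
  classical
  set m := Nat.sqrt n with hm
  have hm3 : 3 ≤ m := by
    rw [hm, Nat.le_sqrt]
    omega
  have hmm : m * m ≤ n := Nat.sqrt_le n
  have hm2 : 2 * m + 1 ≤ n := by nlinarith
  obtain ⟨d, hd⟩ := erdos hm3
  -- which case
  have hcase : ({0, 1, 2} : Finset ℕ) ⊆ P ∨ ({0, 2, 4} : Finset ℕ) ⊆ P ∨
      ({2, 3, 4} : Finset ℕ) ⊆ P := by
    rw [not_subset] at h023 h124
    obtain ⟨a, ha, ha'⟩ := h023
    obtain ⟨b, hb, hb'⟩ := h124
    have ha5 := mem_range.1 (hP ha)
    have hb5 := mem_range.1 (hP hb)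
    simp only [mem_insert, mem_singleton, not_or] at ha' hb'
    have ha1 : a = 1 ∨ a = 4 := by omega
    have hb1 : b = 0 ∨ b = 3 := by omega
    by_cases h0 : 0 ∈ P
    · rcases ha1 with rfl | rfl
      · left
        intro x hx
        simp only [mem_insert, mem_singleton] at hx
        rcases hx with rfl | rfl | rfl <;> assumption
      · right; left
        intro x hx
        simp only [mem_insert, mem_singleton] at hx
        rcases hx with rfl | rfl | rfl <;> assumption
    · have h4 : 4 ∈ P := by tauto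
      rcases hb1 with rfl | rfl
      · exact absurd hb h0
      · right; right
        intro x hx
        simp only [mem_insert, mem_singleton] at hx
        rcases hx with rfl | rfl | rfl <;> assumption
  rcases hcase with h | h | h
  · refine ⟨tri (f1 d), (local_f1 d _).mono h, ?_⟩
    intro H hH hHc hhom
    obtain ⟨b, K, hK, hKm, hKc⟩ := hom_f1 (d := d) (m := m) (by omega) (by omega)
      (by rw [hHc]; exact hmm) hhom
    have := hd b K (hK.trans hH) hKm
    omega
  · refine ⟨tri (f2 d), (local_f2 d _).mono h, ?_⟩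
    intro H hH hHc hhom
    obtain ⟨b, K, hK, hKm, hKc⟩ := hom_f2 (d := d) (m := m) (by omega) (by omega) hhom
    have := hd b K (hK.trans hH) hKm
    omega
  · refine ⟨fun A => !tri (f1 d) A, ?_, ?_⟩
    · intro B hB hBc
      apply h
      have h1 := edges_not (tri (f1 d)) hBc
      have h2 := local_f1 d _ B hB hBc
      simp only [mem_insert, mem_singleton] at h2 ⊢
      omega
    · intro H hH hHc hhom
      obtain ⟨b, K, hK, hKm, hKc⟩ := hom_f1 (d := d) (m := m) (by omega) (by omega)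
        (by rw [hHc]; exact hmm) (homogeneous_not hhom)
      have := hd b K (hK.trans hH) hKm
      omega

theorem exp_le {n : ℕ} (hn : 9 ≤ n) : Real.exp (Real.sqrt n / 10) ≤ (2 ^ (Nat.sqrt n / 2) : ℕ) := by
  have h1 : Real.sqrt n < Nat.sqrt n + 1 := by
    rw [Real.sqrt_lt' (by positivity)]
    have := Nat.lt_succ_sqrt n
    have h2 : n < (Nat.sqrt n + 1) ^ 2 := by rw [sq]; exact this
    exact_mod_cast h2
  have h3 : 3 ≤ Real.sqrt n := by
    apply Real.le_sqrt_of_sq_le
    have : (9 : ℝ) ≤ n := by exact_mod_cast hn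
    linarith
  have h4 : (Nat.sqrt n : ℝ) ≤ 2 * (Nat.sqrt n / 2 : ℕ) + 1 := by
    have : Nat.sqrt n ≤ 2 * (Nat.sqrt n / 2) + 1 := by omega
    exact_mod_cast this
  have h5 : (0.6931471803 : ℝ) < Real.log 2 := Real.log_two_gt_d9
  have h6 : ((2 ^ (Nat.sqrt n / 2) : ℕ) : ℝ) = Real.exp (Real.log 2 * (Nat.sqrt n / 2 : ℕ)) := by
    push_cast
    rw [mul_comm, Real.exp_nat_mul, Real.exp_log (by norm_num)]
  rw [h6]
  apply Real.exp_le_exp.2
  have h7 : (Real.sqrt n - 2) / 2 < (Nat.sqrt n / 2 : ℕ) := by linarith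
  have h8 : 1 ≤ Nat.sqrt n / 2 := by
    have : 3 ≤ Nat.sqrt n := by rw [Nat.le_sqrt]; omega
    omega
  have h9 : (1 : ℝ) ≤ (Nat.sqrt n / 2 : ℕ) := by exact_mod_cast h8
  nlinarith

end Pool.Agent.Run7.h384.LOC
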