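import Pool.Agent.Run7.h384.LOC.NoTwo

/-!
# Modules of 3-graphs without four vertices spanning exactly two edges
-/

set_option autoImplicit false

namespace Pool.Agent.Run7.h384.LOC

open Finset

open Classical in
/-- the smallest cut containing `x` -/
noncomputable def atom (g : ℕ → ℕ → Bool) (t : Bool) (S : Finset ℕ) (x : ℕ) : Finset ℕ :=
  S.filter (fun y => ∀ X, Cut g t S X → x ∈ X → y ∈ X)

theorem mem_atom {g : ℕ → ℕ → Bool} {t : Bool} {S : Finset ℕ} {x y : ℕ} :
    y ∈ atom g t S x ↔ y ∈ S ∧ ∀ X, Cut g t S X → x ∈ X → y ∈ X := by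
  classical
  unfold atom
  rw [mem_filter]

theorem self_mem_atom {g : ℕ → ℕ → Bool} {t : Bool} {S : Finset ℕ} {x : ℕ} (hx : x ∈ S) :
    x ∈ atom g t S x := mem_atom.2 ⟨hx, fun _ _ h => h⟩

theorem atom_cut {g : ℕ → ℕ → Bool} {t : Bool} {S : Finset ℕ} {x : ℕ} :
    Cut g t S (atom g t S x) := by
  classical
  refine ⟨fun y hy => (mem_atom.1 hy).1, ?_⟩
  intro y hy z hz hz'
  rw [mem_atom] at hy hz'
  have : ¬ ∀ X, Cut g t S X → x ∈ X → z ∈ X := fun h => hz' ⟨hz, h⟩
  push Not at this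
  obtain ⟨X, hX, hxX, hzX⟩ := this
  exact hX.2 y (hy.2 X hX hxX) z hz hzX

theorem atom_ne {g : ℕ → ℕ → Bool} (hg : ∀ x y, g x y = g y x) {t : Bool} {S X : Finset ℕ}
    (hX : X.Nonempty) (hXS : X ≠ S) (hc : Cut g t S X) (x : ℕ) (hx : x ∈ S) : atom g t S x ≠ S := by
  classical
  intro h
  by_cases hxX : x ∈ X
  · apply hXS
    apply Subset.antisymm hc.1
    intro y hy
    rw [← h, mem_atom] at hy
    exact hy.2 X hc hxX
  · obtain ⟨z, hz⟩ := hX
    have hzS := hc.1 hz
    rw [← h, mem_atom] at hzS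
    exact (mem_sdiff.1 (hzS.2 (S \ X) (hc.compl hg) (mem_sdiff.2 ⟨hx, hxX⟩))).2 hz

/-- atoms are connected in the other colour -/
theorem atom_conn {g : ℕ → ℕ → Bool} (hg : ∀ x y, g x y = g y x) {t : Bool} {S D : Finset ℕ} {x : ℕ}
    (hx : x ∈ S) (hD : D ⊆ atom g t S x) (hDne : D.Nonempty) (hDne' : D ≠ atom g t S x) :
    ∃ p ∈ D, ∃ q ∈ atom g t S x, q ∉ D ∧ g p q = !t := by
  classical
  by_contra hno
  push Not at hno
  set C := atom g t S x with hC
  have hCc : Cut g t S C := atom_cut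
  have h1 : Cut g t S D := by
    refine ⟨hD.trans hCc.1, ?_⟩
    intro p hp y hy hy'
    by_cases hyC : y ∈ C
    · have := hno p hp y hyC hy'
      cases hh : g p y <;> cases t <;> simp_all
    · exact hCc.2 p (hD hp) y hy hyC
  by_cases hxD : x ∈ D
  · apply hDne'
    apply Subset.antisymm hD
    intro y hy
    exact (mem_atom.1 hy).2 D h1 hxD
  · obtain ⟨z, hz⟩ := hDne
    exact (mem_sdiff.1 ((mem_atom.1 (hD hz)).2 (S \ D) (h1.compl hg)
      (mem_sdiff.2 ⟨hx, hxD⟩))).2 hz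

/-- two points of an atom whose pair has the colour of the cuts have a common neighbour -/
theorem atom_common {g : ℕ → ℕ → Bool} (hg : ∀ x y, g x y = g y x) {t : Bool} {S : Finset ℕ}
    (hP : P4free g S) {x a b : ℕ} (hx : x ∈ S) (ha : a ∈ atom g t S x) (hb : b ∈ atom g t S x)
    (hab : a ≠ b) (h : g a b = t) :
    ∃ w ∈ atom g t S x, w ≠ a ∧ w ≠ b ∧ g a w = (!t) ∧ g w b = !t := by
  classical
  set C := atom g t S x with hC
  have hCS : C ⊆ S := (atom_cut (g := g) (t := t) (S := S) (x := x)).1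
  set D₁ := C.filter (fun y => y = a ∨ g a y = !t) with hD₁
  set D₂ := C.filter (fun y => y ∈ D₁ ∨ ∃ z ∈ D₁, g z y = !t) with hD₂
  have haD₁ : a ∈ D₁ := mem_filter.2 ⟨ha, Or.inl rfl⟩
  have hD₁₂ : D₁ ⊆ D₂ := fun y hy => mem_filter.2 ⟨(mem_filter.1 hy).1, Or.inl hy⟩
  have hD₂C : D₂ = C := by
    by_contra hne
    obtain ⟨p, hp, q, hq, hq', hpq⟩ := atom_conn hg hx (D := D₂) (filter_subset _ _)
      ⟨a, hD₁₂ haD₁⟩ hne
    have hpD₁ : p ∉ D₁ := by
      intro h1
      exact hq' (mem_filter.2 ⟨hq, Or.inr ⟨p, h1, hpq⟩⟩)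
    rw [hD₂, mem_filter] at hp
    obtain ⟨hpC, hp'⟩ := hp
    rcases hp' with hp' | ⟨z, hz, hzp⟩
    · exact hpD₁ hp'
    · have hza : z ≠ a := by
        rintro rfl
        exact hpD₁ (mem_filter.2 ⟨hpC, Or.inr hzp⟩)
      have hz' := hz
      rw [hD₁, mem_filter] at hz'
      have haz : g a z = !t := by
        rcases hz'.2 with h1 | h1
        · exact absurd h1 hza
        · exact h1
      have hap : g a p = t := by
        by_contra h1
        apply hpD₁
        refine mem_filter.2 ⟨hpC, Or.inr ?_⟩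
        cases hh : g a p <;> cases t <;> simp_all
      have hzq : g z q = t := by
        by_contra h1
        apply hq'
        refine mem_filter.2 ⟨hq, Or.inr ⟨z, hz, ?_⟩⟩
        cases hh : g z q <;> cases t <;> simp_all
      have haq : g a q = t := by
        by_contra h1
        apply hq'
        refine mem_filter.2 ⟨hq, Or.inr ⟨a, haD₁, ?_⟩⟩
        cases hh : g a q <;> cases t <;> simp_all
      have hqD₂ : ∀ y ∈ D₂, y ≠ q := fun y hy h1 => hq' (h1 ▸ hy)
      exact hP a (hCS ha) z (hCS hz'.1) p (hCS hpC) q (hCS hq) hza.symm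
        (fun h1 => hpD₁ (h1 ▸ haD₁)) (hqD₂ a (hD₁₂ haD₁)) (fun h1 => hpD₁ (h1 ▸ hz))
        (hqD₂ z (hD₁₂ hz)) (hqD₂ p (mem_filter.2 ⟨hpC, Or.inr ⟨z, hz, hzp⟩⟩)) (!t) haz hzp hpq
        (by rw [hap, Bool.not_not]) (by rw [hzq, Bool.not_not]) (by rw [haq, Bool.not_not])
  have hbD₂ : b ∈ D₂ := by rw [hD₂C]; exact hb
  rw [hD₂, mem_filter] at hbD₂
  have hbD₁ : b ∉ D₁ := by
    intro h1
    rw [hD₁, mem_filter] at h1
    rcases h1.2 with h2 | h2
    · exact hab h2.symm
    · rw [h] at h2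
      cases t <;> simp at h2
  rcases hbD₂.2 with h1 | ⟨z, hz, hzb⟩
  · exact absurd h1 hbD₁
  · have hz' := hz
    rw [hD₁, mem_filter] at hz'
    have hza : z ≠ a := by
      rintro rfl
      rw [h] at hzb
      cases t <;> simp at hzb
    refine ⟨z, hz'.1, hza, fun h1 => hbD₁ (h1 ▸ hz), ?_, hzb⟩
    rcases hz'.2 with h1 | h1
    · exact absurd h1 hza
    · exact h1

/-- all the triples with exactly two points in `M` have the colour `t` -/
def Mod (h : ℕ → ℕ → ℕ → Bool) (t : Bool) (W M : Finset ℕ) : Prop :=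
  M ⊆ W ∧ ∀ a ∈ M, ∀ b ∈ M, a ≠ b → ∀ z ∈ W, z ∉ M → h a b z = t

theorem atom_mod {h : ℕ → ℕ → ℕ → Bool} (hs : Sym3 h) {W : Finset ℕ} (hn : NoTwo h W) {v x : ℕ}
    (hv : v ∈ W) (hx : x ∈ W.erase v) (t : Bool) :
    Mod h t W (insert v (atom (h v) t (W.erase v) x)) := by
  classical
  set S := W.erase v with hS
  set C := atom (h v) t S x with hC
  have hg : ∀ x y, h v x y = h v y x := fun x y => hs.s23 v x y
  have hCc : Cut (h v) t S C := atom_cut
  have hCS : C ⊆ S := hCc.1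
  have hCW : C ⊆ W := hCS.trans (erase_subset _ _)
  refine ⟨insert_subset hv hCW, ?_⟩
  have key1 : ∀ b ∈ C, ∀ z ∈ W, z ∉ insert v C → h v b z = t := by
    intro b hb z hz hz'
    rw [mem_insert, not_or] at hz'
    exact hCc.2 b hb z (mem_erase.2 ⟨hz'.1, hz⟩) hz'.2
  have key2 : ∀ a ∈ C, ∀ b ∈ C, a ≠ b → ∀ z ∈ W, z ∉ insert v C → h v a b = (!t) →
      h a b z = t := by
    intro a ha b hb hab z hz hz' h1
    have hz'' := hz'
    rw [mem_insert, not_or] at hz'
    have va : v ≠ a := (mem_erase.1 (hCS ha)).1.symm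
    have vb : v ≠ b := (mem_erase.1 (hCS hb)).1.symm
    have az : a ≠ z := fun h => hz'.2 (h ▸ ha)
    have bz : b ≠ z := fun h => hz'.2 (h ▸ hb)
    -- four points v z a b ; v z a = t, v z b = t, v a b = !t
    have := hn.maj hv hz (hCW ha) (hCW hb) (Ne.symm hz'.1) va vb az.symm bz.symm hab
      ((hg z a).trans (key1 a ha z hz hz'')) ((hg z b).trans (key1 b hb z hz hz'')) h1
    rw [hs.rot' a b z]
    exact this
  intro a ha b hb hab z hz hz'
  rw [mem_insert] at ha hb
  rcases ha with rfl | ha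
  · rcases hb with rfl | hb
    · exact absurd rfl hab
    · exact key1 b hb z hz hz'
  · rcases hb with rfl | hb
    · rw [hs.s12]
      exact key1 a ha z hz hz'
    · by_cases h1 : h v a b = !t
      · exact key2 a ha b hb hab z hz hz' h1
      · have h1' : h v a b = t := by cases hh : h v a b <;> cases t <;> simp_all
        obtain ⟨w, hw, hwa, hwb, haw, hwb'⟩ := atom_common hg (hn.p4 hs hv) hx ha hb hab h1'
        have hz'' := hz'
        rw [mem_insert, not_or] at hz'
        have va : v ≠ a := (mem_erase.1 (hCS ha)).1.symm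
        have vb : v ≠ b := (mem_erase.1 (hCS hb)).1.symm
        have vw : v ≠ w := (mem_erase.1 (hCS hw)).1.symm
        have az : a ≠ z := fun h => hz'.2 (h ▸ ha)
        have bz : b ≠ z := fun h => hz'.2 (h ▸ hb)
        have wz : w ≠ z := fun h => hz'.2 (h ▸ hw)
        have e1 : h a w z = t := key2 a ha w hw hwa.symm z hz hz'' haw
        have e2 : h w b z = t := key2 w hw b hb hwb z hz hz'' hwb'
        -- v w a = !t, v w b = !t, v a b = t  gives  w a b = !t
        have e3 : h w a b = !t := hn.maj (t := !t) hv (hCW hw) (hCW ha) (hCW hb) vw va vb hwa hwb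
          hab ((hg w a).trans haw) hwb' (by rw [h1', Bool.not_not])
        -- w z a = t, w z b = t, w a b = !t  gives  z a b = t
        have e4 : h z a b = t := hn.maj (hCW hw) hz (hCW ha) (hCW hb) wz hwa hwb az.symm bz.symm hab
          (by rw [hs.rot' w z a]; exact e1) (by rw [hs.s23]; exact e2) e3
        rw [hs.rot' a b z]
        exact e4

end Pool.Agent.Run7.h384.LOC
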