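import Mathlib

/-!
# 3-graphs without four vertices spanning exactly two edges
-/

set_option autoImplicit false

namespace Pool.Agent.Run7.h384.LOC

open Finset

/-- symmetric ternary colourings -/
structure Sym3 (h : ℕ → ℕ → ℕ → Bool) : Prop where
  s12 : ∀ x y z, h x y z = h y x z
  s23 : ∀ x y z, h x y z = h x z y

theorem Sym3.s13 {h : ℕ → ℕ → ℕ → Bool} (hs : Sym3 h) (x y z : ℕ) : h x y z = h z y x := by
  rw [hs.s12, hs.s23, hs.s12]

theorem Sym3.rot {h : ℕ → ℕ → ℕ → Bool} (hs : Sym3 h) (x y z : ℕ) : h x y z = h y z x := by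
  rw [hs.s12, hs.s23]

theorem Sym3.rot' {h : ℕ → ℕ → ℕ → Bool} (hs : Sym3 h) (x y z : ℕ) : h x y z = h z x y := by
  rw [hs.s23, hs.s12]

/-- no four points span exactly two edges -/
def NoTwo (h : ℕ → ℕ → ℕ → Bool) (W : Finset ℕ) : Prop :=
  ∀ x ∈ W, ∀ y ∈ W, ∀ z ∈ W, ∀ w ∈ W, x ≠ y → x ≠ z → x ≠ w → y ≠ z → y ≠ w → z ≠ w →
    (h x y z).toNat + (h x y w).toNat + (h x z w).toNat + (h y z w).toNat ≠ 2

theorem NoTwo.subset {h : ℕ → ℕ → ℕ → Bool} {W W' : Finset ℕ} (hn : NoTwo h W) (hW : W' ⊆ W) :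
    NoTwo h W' := fun x hx y hy z hz w hw => hn x (hW hx) y (hW hy) z (hW hz) w (hW hw)

theorem NoTwo.maj {h : ℕ → ℕ → ℕ → Bool} {W : Finset ℕ} (hn : NoTwo h W) {x y z w : ℕ}
    (hx : x ∈ W) (hy : y ∈ W) (hz : z ∈ W) (hw : w ∈ W) (xy : x ≠ y) (xz : x ≠ z) (xw : x ≠ w)
    (yz : y ≠ z) (yw : y ≠ w) (zw : z ≠ w) {t : Bool} (h1 : h x y z = t) (h2 : h x y w = t)
    (h3 : h x z w = !t) : h y z w = t := by
  have := hn x hx y hy z hz w hw xy xz xw yz yw zw
  rw [h1, h2, h3] at this
  cases t <;> cases hh : h y z w <;> simp_all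

/-- homogeneous sets -/
def Hm (h : ℕ → ℕ → ℕ → Bool) (t : Bool) (H : Finset ℕ) : Prop :=
  ∀ x ∈ H, ∀ y ∈ H, ∀ z ∈ H, x ≠ y → x ≠ z → y ≠ z → h x y z = t

open Classical in
/-- the largest size of a homogeneous subset of colour `t` -/
noncomputable def hm3 (h : ℕ → ℕ → ℕ → Bool) (t : Bool) (W : Finset ℕ) : ℕ :=
  (W.powerset.filter (Hm h t)).sup card

theorem le_hm3 {h : ℕ → ℕ → ℕ → Bool} {t : Bool} {W H : Finset ℕ} (hH : H ⊆ W) (hm : Hm h t H) :
    H.card ≤ hm3 h t W := by
  classical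
  unfold hm3
  exact le_sup (f := card) (mem_filter.2 ⟨mem_powerset.2 hH, hm⟩)

theorem exists_hm3 (h : ℕ → ℕ → ℕ → Bool) (t : Bool) (W : Finset ℕ) :
    ∃ H ⊆ W, Hm h t H ∧ H.card = hm3 h t W := by
  classical
  have hne : (W.powerset.filter (Hm h t)).Nonempty :=
    ⟨∅, mem_filter.2 ⟨empty_mem_powerset _, fun x hx => by simp at hx⟩⟩
  obtain ⟨H, hH, e⟩ := exists_mem_eq_sup _ hne card
  rw [mem_filter, mem_powerset] at hH
  exact ⟨H, hH.1, hH.2, e.symm⟩

theorem hm3_mono {h : ℕ → ℕ → ℕ → Bool} {t : Bool} {W W' : Finset ℕ} (hW : W ⊆ W') :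
    hm3 h t W ≤ hm3 h t W' := by
  obtain ⟨H, hH, h1, h2⟩ := exists_hm3 h t W
  rw [← h2]
  exact le_hm3 (hH.trans hW) h1

theorem one_le_hm3 {h : ℕ → ℕ → ℕ → Bool} {t : Bool} {W : Finset ℕ} (hW : W.Nonempty) :
    1 ≤ hm3 h t W := by
  obtain ⟨v, hv⟩ := hW
  have : Hm h t {v} := by
    intro x hx y hy z hz hxy
    rw [mem_singleton] at hx hy
    exact absurd (hx.trans hy.symm) hxy
  have h1 := le_hm3 (singleton_subset_iff.2 hv) this
  simpa using h1

/-- no induced path on four vertices -/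
def P4free (g : ℕ → ℕ → Bool) (S : Finset ℕ) : Prop :=
  ∀ a ∈ S, ∀ b ∈ S, ∀ c ∈ S, ∀ d ∈ S, a ≠ b → a ≠ c → a ≠ d → b ≠ c → b ≠ d → c ≠ d → ∀ t : Bool,
    g a b = t → g b c = t → g c d = t → g a c = (!t) → g b d = (!t) → g a d = (!t) → False

theorem NoTwo.p4 {h : ℕ → ℕ → ℕ → Bool} (hs : Sym3 h) {W : Finset ℕ} (hn : NoTwo h W) {v : ℕ}
    (hv : v ∈ W) : P4free (h v) (W.erase v) := by
  intro a ha b hb c hc d hd ab ac ad bc bd cd t h1 h2 h3 h4 h5 h6
  rw [mem_erase] at ha hb hc hd
  have va := ha.1.symm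
  have vb := hb.1.symm
  have vc := hc.1.symm
  have vd := hd.1.symm
  have ha := ha.2
  have hb := hb.2
  have hc := hc.2
  have hd := hd.2
  -- `abc`: v b a, v b c of colour t, v a c of colour !t
  have e1 : h b a c = t := hn.maj hv hb ha hc vb va vc ab.symm bc ac ((hs.s23 v b a).trans h1) h2 h4
  have e2 : h c b d = t := hn.maj hv hc hb hd vc vb vd bc.symm cd bd ((hs.s23 v c b).trans h2) h3 h5
  -- `abd` : v d a, v d b of colour !t, v a b of colour t
  have e3 : h d a b = !t := hn.maj (t := !t) hv hd ha hb vd va vb ad.symm bd.symm ab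
    ((hs.s23 v d a).trans h6) ((hs.s23 v d b).trans h5) (by rw [h1, Bool.not_not])
  have e4 : h a c d = !t := hn.maj (t := !t) hv ha hc hd va vc vd ac ad cd h4 h6
    (by rw [h3, Bool.not_not])
  have e5 := hn a ha b hb c hc d hd ab ac ad bc bd cd
  rw [hs.s12 a b c, e1, hs.rot' a b d, e3, e4, hs.s12 b c d, e2] at e5
  cases t <;> simp at e5

/-- cuts -/
def Cut (g : ℕ → ℕ → Bool) (t : Bool) (S X : Finset ℕ) : Prop :=
  X ⊆ S ∧ ∀ x ∈ X, ∀ y ∈ S, y ∉ X → g x y = t

theorem Cut.compl {g : ℕ → ℕ → Bool} (hg : ∀ x y, g x y = g y x) {t : Bool} {S X : Finset ℕ}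
    (h : Cut g t S X) : Cut g t S (S \ X) := by
  classical
  refine ⟨sdiff_subset, fun x hx y hy hy' => ?_⟩
  rw [mem_sdiff] at hx hy'
  rw [hg]
  apply h.2 y ?_ x hx.1 hx.2
  by_contra hcon
  exact hy' ⟨hy, hcon⟩

theorem exists_cut {g : ℕ → ℕ → Bool} (hg : ∀ x y, g x y = g y x) : ∀ (m : ℕ) (S : Finset ℕ),
    S.card = m → 2 ≤ m → P4free g S → ∃ t X, X.Nonempty ∧ X ≠ S ∧ Cut g t S X := by
  classical
  intro m
  induction m with
  | zero => intro S _ h; omega
  | succ m ih =>
    intro S hS hm hP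
    obtain ⟨u, S', hu, rfl, hS'⟩ : ∃ u S', u ∉ S' ∧ insert u S' = S ∧ S'.card = m := by
      obtain ⟨u, hu⟩ : S.Nonempty := by rw [← card_pos]; omega
      exact ⟨u, S.erase u, notMem_erase _ _, insert_erase hu, by rw [card_erase_of_mem hu]; omega⟩
    have hS'S : S' ⊆ insert u S' := subset_insert _ _
    rcases Nat.lt_or_ge m 2 with h2 | h2
    · -- two points
      have h1 : S'.card = 1 := by omega
      obtain ⟨w, rfl⟩ := card_eq_one.1 h1
      have huw : u ≠ w := fun h => hu (by rw [h]; exact mem_singleton_self _)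
      refine ⟨g u w, {u}, singleton_nonempty _, ?_, singleton_subset_iff.2 (mem_insert_self _ _), ?_⟩
      · intro h
        have : w ∈ ({u} : Finset ℕ) := by rw [h]; simp
        rw [mem_singleton] at this
        exact huw this.symm
      · intro x hx y hy hy'
        rw [mem_singleton] at hx
        rw [mem_insert, mem_singleton] at hy
        rcases hy with rfl | rfl
        · exact absurd (mem_singleton_self _) hy'
        · rw [hx]
    · obtain ⟨t, X₀, hX₀, hX₀S, hcut₀⟩ := ih S' hS' h2 (fun a ha b hb c hc d hd =>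
        hP a (hS'S ha) b (hS'S hb) c (hS'S hc) d (hS'S hd))
      by_contra hcon
      push Not at hcon
      -- case 1
      have c1 : ∀ X, X.Nonempty → X ≠ S' → Cut g t S' X → ∃ x ∈ X, g u x = !t := by
        intro X hX hXS hXc
        by_contra hno
        push Not at hno
        refine hcon t X hX ?_ ⟨hXc.1.trans hS'S, ?_⟩
        · intro h
          exact hu (hXc.1 (h ▸ mem_insert_self _ _))
        · intro x hx y hy hy'
          rw [mem_insert] at hy
          rcases hy with rfl | hy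
          · rw [hg]
            have := hno x hx
            cases hh : g y x <;> cases t <;> simp_all
          · exact hXc.2 x hx y hy hy'
      -- case 2
      have c2 : ∃ w ∈ S', g u w = t := by
        by_contra hno
        push Not at hno
        refine hcon (!t) {u} (singleton_nonempty _) ?_
          ⟨singleton_subset_iff.2 (mem_insert_self _ _), ?_⟩
        · intro h
          have : (insert u S').card = 1 := by rw [← h]; simp
          rw [card_insert_of_notMem hu] at this
          omega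
        · intro x hx y hy hy'
          rw [mem_singleton] at hx hy'
          rw [mem_insert] at hy
          rcases hy with hy | hy
          · exact absurd hy hy'
          · rw [hx]
            have := hno y hy
            cases hh : g u y <;> cases t <;> simp_all
      obtain ⟨w, hw, hwt⟩ := c2
      -- minimal cut containing `w`
      set 𝒳 := S'.powerset.filter (fun X => w ∈ X ∧ X ≠ S' ∧ Cut g t S' X) with h𝒳
      have hne : 𝒳.Nonempty := by
        by_cases hwX : w ∈ X₀
        · exact ⟨X₀, mem_filter.2 ⟨mem_powerset.2 hcut₀.1, hwX, hX₀S, hcut₀⟩⟩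
        · refine ⟨S' \ X₀, mem_filter.2 ⟨mem_powerset.2 sdiff_subset, mem_sdiff.2 ⟨hw, hwX⟩, ?_,
            hcut₀.compl hg⟩⟩
          intro h
          obtain ⟨x, hx⟩ := hX₀
          have : x ∈ S' \ X₀ := by rw [h]; exact hcut₀.1 hx
          exact (mem_sdiff.1 this).2 hx
      obtain ⟨X, hX, hmin⟩ := exists_min_image 𝒳 card hne
      rw [h𝒳, mem_filter, mem_powerset] at hX
      obtain ⟨hXS, hwX, hXne, hXc⟩ := hX
      set X₁ := X.filter (fun x => g u x = t) with hX₁
      obtain ⟨x₂, hx₂, hx₂t⟩ := c1 X ⟨w, hwX⟩ hXne hXc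
      have hcross : ∃ w' ∈ X₁, ∃ a ∈ X, g u a = (!t) ∧ g w' a = !t := by
        by_contra hno
        push Not at hno
        have hcutX₁ : Cut g t S' X₁ := by
          refine ⟨(filter_subset _ _).trans hXS, ?_⟩
          intro x hx y hy hy'
          by_cases hyX : y ∈ X
          · have h3 : g u y = !t := by
              by_contra h4
              apply hy'
              rw [hX₁, mem_filter]
              refine ⟨hyX, ?_⟩
              cases hh : g u y <;> cases t <;> simp_all
            have h5 := hno x hx y hyX h3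
            cases hh : g x y <;> cases t <;> simp_all
          · exact hXc.2 x (mem_filter.1 hx).1 y hy hyX
        have hX₁𝒳 : X₁ ∈ 𝒳 := by
          rw [h𝒳, mem_filter, mem_powerset]
          refine ⟨(filter_subset _ _).trans hXS, mem_filter.2 ⟨hwX, hwt⟩, ?_, hcutX₁⟩
          intro h
          have : x₂ ∈ X₁ := by rw [h]; exact hXS hx₂
          rw [hX₁, mem_filter, hx₂t] at this
          cases t <;> simp at this
        have h6 := hmin X₁ hX₁𝒳
        have h7 : X₁ = X := eq_of_subset_of_card_le (filter_subset _ _) h6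
        have : x₂ ∈ X₁ := by rw [h7]; exact hx₂
        rw [hX₁, mem_filter, hx₂t] at this
        cases t <;> simp at this
      obtain ⟨w', hw', a, ha, hua, hwa⟩ := hcross
      rw [hX₁, mem_filter] at hw'
      obtain ⟨b, hb, hub⟩ := c1 (S' \ X) (by
        rw [sdiff_nonempty]
        intro h
        exact hXne (Subset.antisymm hXS h)) (by
        intro h
        have : w ∈ S' \ X := by rw [h]; exact hw
        exact (mem_sdiff.1 this).2 hwX) (hXc.compl hg)
      rw [mem_sdiff] at hb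
      have hw'b : g w' b = t := hXc.2 w' hw'.1 b hb.1 hb.2
      have hab : g a b = t := hXc.2 a ha b hb.1 hb.2
      have n1 : w' ≠ a := by
        rintro rfl
        rw [hw'.2] at hua
        cases t <;> simp at hua
      have n2 : w' ≠ u := fun h => hu (h ▸ hXS hw'.1)
      have n3 : w' ≠ b := fun h => hb.2 (h ▸ hw'.1)
      have n4 : a ≠ u := fun h => hu (h ▸ hXS ha)
      have n5 : a ≠ b := fun h => hb.2 (h ▸ ha)
      have n6 : u ≠ b := fun h => hu (h ▸ hb.1)
      exact hP w' (hS'S (hXS hw'.1)) a (hS'S (hXS ha)) u (mem_insert_self _ _) b (hS'S hb.1)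
        n1 n2 n3 n4 n5 n6 (!t) hwa (by rw [hg]; exact hua) hub (by rw [hg, hw'.2, Bool.not_not])
        (by rw [hab, Bool.not_not]) (by rw [hw'b, Bool.not_not])

end Pool.Agent.Run7.h384.LOC
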