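import Pool.Agent.Run7.h384.LOC.Module

/-!
# 3-graphs without four vertices spanning exactly two edges: polynomial homogeneous sets
-/

set_option autoImplicit false

namespace Pool.Agent.Run7.h384.LOC

open Finset

/-- the product of the largest sizes of homogeneous sets -/
noncomputable def F3 (h : ℕ → ℕ → ℕ → Bool) (W : Finset ℕ) : ℕ := hm3 h true W * hm3 h false W

theorem F3_eq (h : ℕ → ℕ → ℕ → Bool) (W : Finset ℕ) (t : Bool) :
    F3 h W = hm3 h t W * hm3 h (!t) W := by
  unfold F3
  cases t
  · simp [mul_comm]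
  · simp

theorem hm3_le_F3 (h : ℕ → ℕ → ℕ → Bool) {W : Finset ℕ} (hW : W.Nonempty) (t : Bool) :
    hm3 h t W ≤ F3 h W := by
  rw [F3_eq h W t]
  exact Nat.le_mul_of_pos_right _ (one_le_hm3 hW)

/-- combining a module with its complement -/
theorem combine {h : ℕ → ℕ → ℕ → Bool} (hs : Sym3 h) {W : Finset ℕ} (hn : NoTwo h W) {t : Bool}
    {M : Finset ℕ} (hM : Mod h t W M) :
    ∃ M' ⊆ M, M.card ≤ M'.card + hm3 h t (W \ M) ^ 2 ∧
      hm3 h t (W \ M) + hm3 h t M' ≤ hm3 h t W := by
  classical
  obtain ⟨K, hK, hKm, hKc⟩ := exists_hm3 h t (W \ M)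
  set bad := M.filter (fun m => ∃ o ∈ K, ∃ o' ∈ K, o ≠ o' ∧ h m o o' = !t) with hbad
  have hKW : ∀ o ∈ K, o ∈ W ∧ o ∉ M := fun o ho => mem_sdiff.1 (hK ho)
  have hbadc : bad.card ≤ K.card ^ 2 := by
    have h1 : ∀ m ∈ bad, ∃ o ∈ K, ∃ o' ∈ K, o ≠ o' ∧ h m o o' = !t := fun m hm =>
      (mem_filter.1 hm).2
    choose! f hf f' hf' hne hcol using h1
    rw [sq, ← card_product]
    apply card_le_card_of_injOn (fun m => (f m, f' m))
    · intro m hm
      rw [mem_coe] at hm
      exact mem_product.2 ⟨hf m hm, hf' m hm⟩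
    · intro m hm m' hm' heq
      rw [mem_coe] at hm hm'
      by_contra hmm
      have e1 : f m = f m' := (Prod.mk.inj heq).1
      have e2 : f' m = f' m' := (Prod.mk.inj heq).2
      set o := f m with ho
      set o' := f' m with ho'
      have hmM := (mem_filter.1 hm).1
      have hm'M := (mem_filter.1 hm').1
      have oW := hKW o (hf m hm)
      have o'W := hKW o' (hf' m hm)
      have a1 : h m m' o = t := hM.2 m hmM m' hm'M hmm o oW.1 oW.2
      have a2 : h m m' o' = t := hM.2 m hmM m' hm'M hmm o' o'W.1 o'W.2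
      have a3 : h m o o' = !t := hcol m hm
      have a4 : h m' o o' = !t := by
        have := hcol m' hm'
        rwa [← e1, ← e2] at this
      have mo : m ≠ o := fun h => oW.2 (h ▸ hmM)
      have mo' : m ≠ o' := fun h => o'W.2 (h ▸ hmM)
      have m'o : m' ≠ o := fun h => oW.2 (h ▸ hm'M)
      have m'o' : m' ≠ o' := fun h => o'W.2 (h ▸ hm'M)
      have := hn.maj (hM.1 hmM) (hM.1 hm'M) oW.1 o'W.1 hmm mo mo' m'o m'o' (hne m hm) a1 a2 a3
      rw [a4] at this
      cases t <;> simp at this
  refine ⟨M \ bad, sdiff_subset, ?_, ?_⟩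
  · have h1 : (M \ bad).card + bad.card = M.card := card_sdiff_add_card_eq_card (filter_subset _ _)
    rw [← hKc]
    omega
  · obtain ⟨L, hL, hLm, hLc⟩ := exists_hm3 h t (M \ bad)
    have hLM : ∀ l ∈ L, l ∈ M ∧ l ∉ bad := fun l hl => mem_sdiff.1 (hL hl)
    have hdisj : Disjoint K L := by
      rw [disjoint_left]
      intro x hx hx'
      exact (hKW x hx).2 (hLM x hx').1
    rw [← hKc, ← hLc, ← card_union_of_disjoint hdisj]
    apply le_hm3
    · apply union_subset (hK.trans sdiff_subset)
      intro l hl
      exact hM.1 (hLM l hl).1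
    · -- two points of `K`, one of `L`
      have c1 : ∀ l ∈ L, ∀ o ∈ K, ∀ o' ∈ K, o ≠ o' → h l o o' = t := by
        intro l hl o ho o' ho' hoo
        by_contra hcon
        apply (hLM l hl).2
        rw [hbad, mem_filter]
        refine ⟨(hLM l hl).1, o, ho, o', ho', hoo, ?_⟩
        cases hh : h l o o' <;> cases t <;> simp_all
      have c2 : ∀ l ∈ L, ∀ l' ∈ L, l ≠ l' → ∀ o ∈ K, h l l' o = t := fun l hl l' hl' hll o ho =>
        hM.2 l (hLM l hl).1 l' (hLM l' hl').1 hll o (hKW o ho).1 (hKW o ho).2
      intro x hx y hy z hz xy xz yz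
      rw [mem_union] at hx hy hz
      rcases hx with hx | hx <;> rcases hy with hy | hy <;> rcases hz with hz | hz
      · exact hKm x hx y hy z hz xy xz yz
      · rw [hs.rot' x y z]; exact c1 z hz x hx y hy xy
      · rw [hs.s12]; exact c1 y hy x hx z hz xz
      · rw [hs.rot]; exact c2 y hy z hz yz x hx
      · exact c1 x hx y hy z hz yz
      · rw [hs.s23]; exact c2 x hx z hz xz y hy
      · exact c2 x hx y hy xy z hz
      · exact hLm x hx y hy z hz xy xz yz

theorem arith_A {N s q p' m' : ℕ} (hq : 1 ≤ q) (hs : N ^ 3 ≤ s ^ 4) (hN : (2 * q) ^ 10 < N)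
    (hm : s ≤ m' + q ^ 2) (hp' : m' ≤ (2 * p') ^ 10) : q ^ 2 ≤ 10240 * p' ^ 9 ∧ 1 ≤ m' := by
  have h1 : 2 * q ^ 4 < s := by
    by_contra hcon
    push Not at hcon
    have h2 : N ^ 3 ≤ (2 * q ^ 4) ^ 4 := hs.trans (Nat.pow_le_pow_left hcon 4)
    have h3 : ((2 * q) ^ 10) ^ 3 < N ^ 3 := Nat.pow_lt_pow_left hN (by norm_num)
    have h4 : (2 * q ^ 4) ^ 4 ≤ ((2 * q) ^ 10) ^ 3 := by
      calc (2 * q ^ 4) ^ 4 = 16 * q ^ 16 := by ring
        _ ≤ 16 * q ^ 30 := Nat.mul_le_mul_left _ (Nat.pow_le_pow_right hq (by norm_num))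
        _ ≤ 1073741824 * q ^ 30 := Nat.mul_le_mul_right _ (by norm_num)
        _ = _ := by ring
    omega
  have h2 : q ^ 2 ≤ q ^ 4 := Nat.pow_le_pow_right hq (by norm_num)
  have h3 : q ^ 4 < m' := by omega
  refine ⟨?_, by omega⟩
  by_contra hcon
  push Not at hcon
  have hp0 : 1 ≤ p' := by
    by_contra h0
    have : p' = 0 := by omega
    rw [this] at hp'
    simp at hp'
    omega
  have h4 : q ^ 4 < (2 * p') ^ 10 := lt_of_lt_of_le h3 hp'
  have h5 : (10240 * p' ^ 9) ^ 2 < (q ^ 2) ^ 2 := Nat.pow_lt_pow_left hcon (by norm_num)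
  have h6 : (2 * p') ^ 10 ≤ (10240 * p' ^ 9) ^ 2 := by
    calc (2 * p') ^ 10 = 1024 * p' ^ 10 := by ring
      _ ≤ 1024 * p' ^ 18 := Nat.mul_le_mul_left _ (Nat.pow_le_pow_right hp0 (by norm_num))
      _ ≤ 104857600 * p' ^ 18 := Nat.mul_le_mul_right _ (by norm_num)
      _ = _ := by ring
  have h7 : (q ^ 2) ^ 2 = q ^ 4 := by ring
  omega

theorem arith_B {p p' x : ℕ} (hp : 1 ≤ p) (hx : x ≤ 10240 * p' ^ 9) :
    (2 * p) ^ 10 + (2 * p') ^ 10 + x ≤ (2 * (p + p')) ^ 10 := by
  have h1 : x ≤ 10240 * p' ^ 9 * p := hx.trans (Nat.le_mul_of_pos_right _ hp)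
  have h2 : (2 * (p + p')) ^ 10 = (2 * p) ^ 10 + (2 * p') ^ 10 + 10240 * p' ^ 9 * p +
    (10240 * p ^ 9 * p' + 46080 * p ^ 8 * p' ^ 2 + 122880 * p ^ 7 * p' ^ 3 +
      215040 * p ^ 6 * p' ^ 4 + 258048 * p ^ 5 * p' ^ 5 + 215040 * p ^ 4 * p' ^ 6 +
      122880 * p ^ 3 * p' ^ 7 + 46080 * p ^ 2 * p' ^ 8) := by ring
  rw [h2]
  omega

theorem arith_C {N t a : ℕ} (ht : 1 ≤ t) (ha1 : 1 ≤ a) (ha : a ^ 4 ≤ N ^ 3) (hN0 : 1 ≤ N)
    (hN : N ≤ 2 * (t + t ^ 2 * a)) : N ≤ (2 * t) ^ 10 := by
  have h1 : N ≤ 4 * t ^ 2 * a := by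
    have h2 : t ≤ t ^ 2 * a := by
      calc t ≤ t * t := Nat.le_mul_self t
        _ = t ^ 2 * 1 := by ring
        _ ≤ _ := Nat.mul_le_mul_left _ ha1
    calc N ≤ 2 * (t + t ^ 2 * a) := hN
      _ ≤ 2 * (t ^ 2 * a + t ^ 2 * a) := by omega
      _ = _ := by ring
  have h2 : N ^ 4 ≤ 256 * t ^ 8 * N ^ 3 := by
    calc N ^ 4 ≤ (4 * t ^ 2 * a) ^ 4 := Nat.pow_le_pow_left h1 4
      _ = 256 * t ^ 8 * a ^ 4 := by ring
      _ ≤ _ := Nat.mul_le_mul_left _ ha
  have h3 : N ^ 3 * N ≤ N ^ 3 * (256 * t ^ 8) := by
    calc N ^ 3 * N = N ^ 4 := by ring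
      _ ≤ _ := h2
      _ = _ := by ring
  have h4 := Nat.le_of_mul_le_mul_left h3 (pow_pos hN0 3)
  calc N ≤ 256 * t ^ 8 := h4
    _ ≤ 1024 * t ^ 8 := Nat.mul_le_mul_right _ (by norm_num)
    _ ≤ 1024 * t ^ 10 := Nat.mul_le_mul_left _ (Nat.pow_le_pow_right ht (by norm_num))
    _ = _ := by ring

/-- **Polynomial homogeneous sets.** -/
theorem noTwo_poly {h : ℕ → ℕ → ℕ → Bool} (hs : Sym3 h) : ∀ (m : ℕ) (W : Finset ℕ), W.card ≤ m →
    NoTwo h W → W.card ≤ (2 * F3 h W) ^ 10 := by
  classical
  intro m
  induction m with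
  | zero =>
    intro W hW _
    have : W.card = 0 := by omega
    rw [this]
    exact Nat.zero_le _
  | succ m ih =>
    intro W hWm hn
    rcases W.eq_empty_or_nonempty with rfl | hWne
    · simp
    have hF1 : 1 ≤ F3 h W := by
      rw [F3_eq h W true]
      exact Nat.mul_pos (one_le_hm3 hWne) (one_le_hm3 hWne)
    by_cases hA : ∃ t M, Mod h t W M ∧ M.Nonempty ∧ M ≠ W ∧ W.card ^ 3 ≤ M.card ^ 4
    · -- a large module
      obtain ⟨t, M, hM, hMne, hMW, hMc⟩ := hA
      obtain ⟨M', hM', h1, h2⟩ := combine hs hn hM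
      set O := W \ M with hO
      have hOne : O.Nonempty := by
        rw [hO, sdiff_nonempty]
        intro h
        exact hMW (Subset.antisymm hM.1 h)
      have hOM : O.card + M.card = W.card := card_sdiff_add_card_eq_card hM.1
      have hMpos : 0 < M.card := card_pos.2 hMne
      have hOpos : 0 < O.card := card_pos.2 hOne
      set q := hm3 h t O with hq
      have hq1 : 1 ≤ q := one_le_hm3 hOne
      by_cases hbig : W.card ≤ (2 * q) ^ 10
      · refine hbig.trans (Nat.pow_le_pow_left ?_ 10)
        apply Nat.mul_le_mul_left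
        exact (hm3_mono sdiff_subset).trans (hm3_le_F3 h hWne t)
      · push Not at hbig
        have hM'c : M'.card ≤ M.card := card_le_card hM'
        have ihO := ih O (by omega) (hn.subset sdiff_subset)
        have ihM := ih M' (by omega) (hn.subset (hM'.trans hM.1))
        obtain ⟨a1, a2⟩ := arith_A hq1 hMc hbig h1 ihM
        have hp1 : 1 ≤ F3 h O := by
          rw [F3_eq h O true]
          exact Nat.mul_pos (one_le_hm3 hOne) (one_le_hm3 hOne)
        have a3 := arith_B (p := F3 h O) (p' := F3 h M') (x := q ^ 2) hp1 a1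
        have a4 : F3 h O + F3 h M' ≤ F3 h W := by
          rw [F3_eq h O t, F3_eq h M' t, F3_eq h W t]
          calc hm3 h t O * hm3 h (!t) O + hm3 h t M' * hm3 h (!t) M'
              ≤ hm3 h t O * hm3 h (!t) W + hm3 h t M' * hm3 h (!t) W :=
                Nat.add_le_add (Nat.mul_le_mul_left _ (hm3_mono sdiff_subset))
                  (Nat.mul_le_mul_left _ (hm3_mono (hM'.trans hM.1)))
            _ = (hm3 h t O + hm3 h t M') * hm3 h (!t) W := by ring
            _ ≤ _ := Nat.mul_le_mul_right _ h2
        calc W.card = O.card + M.card := hOM.symm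
          _ ≤ (2 * F3 h O) ^ 10 + ((2 * F3 h M') ^ 10 + q ^ 2) := by omega
          _ = (2 * F3 h O) ^ 10 + (2 * F3 h M') ^ 10 + q ^ 2 := by ring
          _ ≤ (2 * (F3 h O + F3 h M')) ^ 10 := a3
          _ ≤ _ := Nat.pow_le_pow_left (Nat.mul_le_mul_left _ a4) 10
    · push Not at hA
      rcases Nat.lt_or_ge W.card 3 with h3 | h3
      · calc W.card ≤ 2 ^ 10 := by omega
          _ ≤ (2 * F3 h W) ^ 10 := Nat.pow_le_pow_left (by omega) 10
      · -- all modules are small
        have hcut : ∀ v ∈ W, ∃ t : Bool, ∀ x ∈ W.erase v,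
            (atom (h v) t (W.erase v) x).card ^ 4 < W.card ^ 3 := by
          intro v hv
          have hc : (W.erase v).card = W.card - 1 := card_erase_of_mem hv
          obtain ⟨t, X, hX, hXS, hXc⟩ := exists_cut (g := h v) (fun x y => hs.s23 v x y) _
            (W.erase v) rfl (by omega) (hn.p4 hs hv)
          refine ⟨t, fun x hx => ?_⟩
          have hmod := atom_mod hs hn hv hx t
          have hne := atom_ne (g := h v) (fun x y => hs.s23 v x y) hX hXS hXc x hx
          have hvC : v ∉ atom (h v) t (W.erase v) x := by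
            intro h1
            exact (mem_erase.1 ((mem_atom.1 h1).1)).1 rfl
          have hne' : insert v (atom (h v) t (W.erase v) x) ≠ W := by
            intro h1
            apply hne
            have h1' : (insert v (atom (h v) t (W.erase v) x)).erase v = W.erase v := by rw [h1]
            rwa [erase_insert hvC] at h1'
          have h2 := hA t _ hmod (insert_nonempty _ _) hne'
          refine lt_of_le_of_lt (Nat.pow_le_pow_left (card_le_card (subset_insert _ _)) 4) h2
        choose! τ hτ using hcut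
        -- the majority
        obtain ⟨t, ht⟩ : ∃ t, W.card ≤ 2 * (W.filter (fun v => τ v = t)).card := by
          by_contra hcon
          push Not at hcon
          have h1 := hcon true
          have h2 := hcon false
          have h3 := card_filter_add_card_filter_not (s := W) (fun v => τ v = true)
          have h4 : W.filter (fun v => ¬ τ v = true) = W.filter (fun v => τ v = false) := by
            apply filter_congr
            intro x _
            simp
          rw [h4] at h3
          omega
        set V := W.filter (fun v => τ v = t) with hV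
        have hVW : V ⊆ W := filter_subset _ _
        obtain ⟨I, hI, hIm, hIc⟩ := exists_hm3 h t V
        have hVne : V.Nonempty := by rw [← card_pos]; omega
        have hI1 : 1 ≤ I.card := by rw [hIc]; exact one_le_hm3 hVne
        set A : ℕ × ℕ → Finset ℕ := fun xy => if xy.2 ∈ W.erase xy.1 then
          atom (h xy.1) t (W.erase xy.1) xy.2 else ∅ with hAdef
        set a := max 1 ((I ×ˢ I).sup (fun xy => (A xy).card)) with ha
        have ha4 : a ^ 4 ≤ W.card ^ 3 := by
          rcases max_choice 1 ((I ×ˢ I).sup (fun xy => (A xy).card)) with h4 | h4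
          · rw [ha, h4, one_pow]
            exact Nat.one_le_pow _ _ (by omega)
          · obtain ⟨xy, hxy, e⟩ := exists_mem_eq_sup (I ×ˢ I)
              (Nonempty.product (card_pos.1 hI1) (card_pos.1 hI1)) (fun xy => (A xy).card)
            rw [ha, h4, e]
            rw [mem_product] at hxy
            simp only [hAdef]
            split_ifs with h5
            · have h6 := hI hxy.1
              rw [hV, mem_filter] at h6
              have h7 := hτ xy.1 h6.1 xy.2 h5
              rw [h6.2] at h7
              exact h7.le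
            · simp
        have hcover : V ⊆ I ∪ (I ×ˢ I).biUnion A := by
          intro w hw
          rw [mem_union]
          by_cases hwI : w ∈ I
          · exact Or.inl hwI
          · right
            have hnot : ¬ Hm h t (insert w I) := by
              intro h4
              have h5 := le_hm3 (insert_subset hw hI) h4
              rw [card_insert_of_notMem hwI, hIc] at h5
              omega
            -- find the bad pair
            have : ∃ x ∈ I, ∃ y ∈ I, x ≠ y ∧ h x y w = !t := by
              by_contra hno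
              push Not at hno
              have hno' : ∀ x ∈ I, ∀ y ∈ I, x ≠ y → h x y w = t := by
                intro x hx y hy hxy
                have := hno x hx y hy hxy
                cases hh : h x y w <;> cases t <;> simp_all
              apply hnot
              intro x hx y hy z hz xy xz yz
              rw [mem_insert] at hx hy hz
              rcases hx with rfl | hx
              · rcases hy with rfl | hy
                · exact absurd rfl xy
                · rcases hz with rfl | hz
                  · exact absurd rfl xz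
                  · rw [hs.rot]
                    exact hno' y hy z hz yz
              · rcases hy with rfl | hy
                · rcases hz with rfl | hz
                  · exact absurd rfl yz
                  · rw [hs.s23]
                    exact hno' x hx z hz xz
                · rcases hz with rfl | hz
                  · exact hno' x hx y hy xy
                  · exact hIm x hx y hy z hz xy xz yz
            obtain ⟨x, hx, y, hy, hxy, hcol⟩ := this
            rw [mem_biUnion]
            refine ⟨(x, y), mem_product.2 ⟨hx, hy⟩, ?_⟩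
            have hxW := hVW (hI hx)
            have hyS : y ∈ W.erase x := mem_erase.2 ⟨hxy.symm, hVW (hI hy)⟩
            have hwS : w ∈ W.erase x := mem_erase.2 ⟨fun h4 => hwI (h4 ▸ hx), hVW hw⟩
            simp only [hAdef, hyS, if_true]
            rw [mem_atom]
            refine ⟨hwS, fun X hX hyX => ?_⟩
            by_contra hwX
            have := hX.2 y hyX w hwS hwX
            rw [hcol] at this
            cases t <;> simp at this
        have hVc : V.card ≤ I.card + I.card ^ 2 * a := by
          calc V.card ≤ (I ∪ (I ×ˢ I).biUnion A).card := card_le_card hcover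
            _ ≤ I.card + ((I ×ˢ I).biUnion A).card := card_union_le _ _
            _ ≤ I.card + ∑ xy ∈ I ×ˢ I, (A xy).card := Nat.add_le_add_left card_biUnion_le _
            _ ≤ I.card + ∑ _xy ∈ I ×ˢ I, a := by
                apply Nat.add_le_add_left
                apply sum_le_sum
                intro xy hxy
                exact (le_sup (f := fun xy => (A xy).card) hxy).trans (le_max_right _ _)
            _ = _ := by rw [sum_const, card_product, smul_eq_mul, sq]
        have hfin : W.card ≤ (2 * I.card) ^ 10 := arith_C (N := W.card) (a := a) hI1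
          (le_max_left _ _) ha4 (by omega)
          (ht.trans (Nat.mul_le_mul_left 2 hVc))
        refine hfin.trans (Nat.pow_le_pow_left (Nat.mul_le_mul_left _ ?_) 10)
        rw [hIc]
        exact (hm3_mono hVW).trans (hm3_le_F3 h hWne t)

end Pool.Agent.Run7.h384.LOC
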